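import Mathlib

/-!
# Hypergraphs without exact hitting sets
-/

set_option autoImplicit false

namespace Pool.Agent.Y428.Cf

open Finset

section
variable {V : Type} [Fintype V] [DecidableEq V] {m : ℕ} (τ : V → Finset (Fin m))

/-- the edges of the hypergraph whose vertex `v` lies in the edges with index in `τ v` -/
def ed (i : Fin m) : Finset V := univ.filter (fun v => i ∈ τ v)

/-- the set of edges -/
def eds : Finset (Finset V) := univ.image (ed τ)

omit [DecidableEq V] in
lemma mem_ed (i : Fin m) (v : V) : v ∈ ed τ i ↔ i ∈ τ v := by simp [ed]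

lemma deg_le (v : V) : ((eds τ).filter (fun e => v ∈ e)).card ≤ (τ v).card := by
  have h : (eds τ).filter (fun e => v ∈ e) ⊆ (τ v).image (ed τ) := by
    intro e he
    rw [mem_filter, eds, mem_image] at he
    obtain ⟨⟨i, -, rfl⟩, hv⟩ := he
    exact mem_image.2 ⟨i, (mem_ed τ i v).1 hv, rfl⟩
  exact (card_le_card h).trans card_image_le

/-- No vertex set meets every edge in exactly one vertex. -/
lemma no_exact (i0 : Fin m) (h2 : ∀ v, 2 ≤ (τ v).card)
    (h0 : ∀ v, i0 ∈ τ v → (τ v).card + 1 = m) :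
    ¬ ∃ c : V → Option (Fin 1), ∀ e ∈ eds τ, ∃ v ∈ e, c v ≠ none ∧
      ∀ w ∈ e, c w = c v → w = v := by
  rintro ⟨c, hc⟩
  have hone : ∀ v w, c v ≠ none → c w ≠ none → c v = c w := by
    intro v w hv hw
    obtain ⟨a, ha⟩ := Option.ne_none_iff_exists'.1 hv
    obtain ⟨b, hb⟩ := Option.ne_none_iff_exists'.1 hw
    rw [ha, hb, Subsingleton.elim a b]
  have hx : ∀ i : Fin m, ∃ x : V, i ∈ τ x ∧ c x ≠ none ∧ ∀ w, i ∈ τ w → c w ≠ none → w = x := by
    intro i
    obtain ⟨x, hx, hn, hu⟩ := hc (ed τ i) (mem_image.2 ⟨i, mem_univ _, rfl⟩)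
    refine ⟨x, (mem_ed τ i x).1 hx, hn, ?_⟩
    intro w hw hwn
    exact hu w ((mem_ed τ i w).2 hw) (hone w x hwn hn)
  obtain ⟨x, hx0, hxn, -⟩ := hx i0
  have hcard := h0 x hx0
  have hcompl : ((τ x)ᶜ).card = 1 := by
    rw [card_compl, Fintype.card_fin]
    omega
  obtain ⟨j, hj⟩ := card_eq_one.1 hcompl
  have hjx : j ∉ τ x := by
    have : j ∈ (τ x)ᶜ := by rw [hj]; exact mem_singleton_self j
    exact mem_compl.1 this
  obtain ⟨y, hyj, hyn, -⟩ := hx j
  have hsub : τ y ⊆ {j} := by
    intro l hl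
    rw [mem_singleton]
    by_contra hlj
    have hlx : l ∈ τ x := by
      by_contra hn
      have : l ∈ (τ x)ᶜ := mem_compl.2 hn
      rw [hj, mem_singleton] at this
      exact hlj this
    obtain ⟨z, -, -, hz⟩ := hx l
    have hxy : x = y := (hz x hlx hxn).trans (hz y hl hyn).symm
    exact hjx (hxy ▸ hyj)
  have := card_le_card hsub
  rw [card_singleton] at this
  have := h2 y
  omega

end

/-- type of the vertices for even uniformity -/
def te (s : ℕ) : Fin 3 × Fin s → Finset (Fin 3) := fun v => univ.erase v.1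

/-- type of the vertices for odd uniformity -/
def tod (s : ℕ) : (Fin 2 × Fin s) ⊕ (Fin 2 ⊕ Fin (s - 1)) → Finset (Fin 4)
  | Sum.inl (0, _) => {0, 1, 3}
  | Sum.inl (1, _) => {0, 2, 3}
  | Sum.inr (Sum.inl 0) => {1, 2, 3}
  | Sum.inr (Sum.inl 1) => {0, 1, 2}
  | Sum.inr (Sum.inr _) => {1, 2}

/-- For every `r ≥ 2` some `r`-uniform hypergraph of maximum degree at most three has no vertex set
that meets every edge in exactly one vertex. -/
theorem low (r : ℕ) (hr : 2 ≤ r) : ∃ (V : Type) (_ : Fintype V) (_ : DecidableEq V)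
    (E : Finset (Finset V)), (∀ e ∈ E, e.card = r) ∧
      (∀ v : V, (E.filter (fun e => v ∈ e)).card ≤ 3) ∧
      ¬ ∃ c : V → Option (Fin 1), ∀ e ∈ E, ∃ v ∈ e, c v ≠ none ∧
        ∀ w ∈ e, c w = c v → w = v := by
  rcases Nat.even_or_odd' r with ⟨s, rfl | rfl⟩
  · refine ⟨Fin 3 × Fin s, inferInstance, inferInstance, eds (te s), ?_, ?_, ?_⟩
    · intro e he
      obtain ⟨i, -, rfl⟩ := mem_image.1 he
      have h1 : ed (te s) i = (univ.erase i) ×ˢ univ := by
        ext ⟨j, t⟩
        rw [mem_ed]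
        simp [te, eq_comm]
      rw [h1, card_product, card_erase_of_mem (mem_univ _)]
      simp
    · intro v
      refine (deg_le (te s) v).trans ?_
      exact (card_le_univ _).trans (by simp)
    · apply no_exact (te s) 0
      · intro v
        simp [te]
      · intro v _
        simp [te]
  · have hs : 1 ≤ s := by omega
    refine ⟨(Fin 2 × Fin s) ⊕ (Fin 2 ⊕ Fin (s - 1)), inferInstance, inferInstance,
      eds (tod s), ?_, ?_, ?_⟩
    · intro e he
      obtain ⟨i, -, rfl⟩ := mem_image.1 he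
      have h1 : (ed (tod s) i).card = (∑ v : (Fin 2 × Fin s) ⊕ (Fin 2 ⊕ Fin (s - 1)),
          if i ∈ tod s v then 1 else 0) := by
        rw [ed, card_filter]
      rw [h1, Fintype.sum_sum_type, Fintype.sum_sum_type, Fintype.sum_prod_type]
      simp only [Fin.sum_univ_two]
      fin_cases i <;> simp [tod] <;> omega
    · intro v
      refine (deg_le (tod s) v).trans ?_
      rcases v with ⟨a, t⟩ | b | t
      · fin_cases a <;> simp [tod]
      · fin_cases b <;> simp [tod]
      · simp [tod]
    · apply no_exact (tod s) 0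
      · intro v
        rcases v with ⟨a, t⟩ | b | t
        · fin_cases a <;> simp [tod]
        · fin_cases b <;> simp [tod]
        · simp [tod]
      · intro v hv
        rcases v with ⟨a, t⟩ | b | t
        · fin_cases a <;> simp [tod]
        · fin_cases b
          · simp [tod] at hv
          · simp [tod]
        · simp [tod] at hv

end Pool.Agent.Y428.Cf
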