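import Pool.Agent.W209.CF.Final

/-!
# Partial conflict-free colourings

A partial colouring is a map `c : V → Option K`, where `none` means uncoloured. It is conflict-free
if every edge has a coloured vertex whose colour is used by no other vertex of the edge.
-/

set_option autoImplicit false

namespace Pool.Agent.Y428.Cf

open Finset

/-- Conflict-free partial colouring; `none` means uncoloured. -/
def PCF {V K : Type} (E : Finset (Finset V)) (c : V → Option K) : Prop :=
  ∀ e ∈ E, ∃ v ∈ e, c v ≠ none ∧ ∀ w ∈ e, c w = c v → w = v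

/-- `r`-uniform hypergraphs of maximum degree at most `D` have conflict-free partial colourings
with `k` colours. -/
def PGood (r D k : ℕ) : Prop :=
  ∀ (V : Type) [Fintype V] [DecidableEq V] (E : Finset (Finset V)), (∀ e ∈ E, e.card = r) →
    (∀ v : V, (E.filter (fun e => v ∈ e)).card ≤ D) → ∃ c : V → Option (Fin k), PCF E c

/-- From three colours with the background colour `0` to a partial colouring with two colours. -/
def tr : Fin 3 → Option (Fin 2) := ![none, some 0, some 1]

lemma tr_inj : Function.Injective tr := by decide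

lemma tr_ne {i : Fin 3} (h : i ≠ 0) : tr i ≠ none := by
  revert i; decide

/-- The case of maximum degree three: two colours. -/
theorem pgood3 (r : ℕ) (hr : 3 ≤ r) : PGood r 3 2 := by
  classical
  intro U _ _ E hU hD
  have hG := Pool.Agent.W209.CF.good3
  let d : U → ℕ := fun v => (E.filter (fun e => v ∈ e)).card
  let W : Type := {p : U × Fin 3 // p.2.val < 3 - d p.1}
  let V' : Type := (↥E × Fin r) ⊕ W
  let A : U × Fin r → Finset (↥E × Fin r) :=
    fun q => univ.filter (fun x => q.1 ∈ x.1.1 ∧ x.2 = q.2)
  let B : U × Fin r → Finset W := fun q => univ.filter (fun x => x.1.1 = q.1)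
  let inc : U × Fin r → Finset V' := fun q => (A q).disjSum (B q)
  have hmL : ∀ (q : U × Fin r) (x : ↥E × Fin r),
      (Sum.inl x : V') ∈ inc q ↔ q.1 ∈ x.1.1 ∧ x.2 = q.2 := by
    intro q x
    show Sum.inl x ∈ (A q).disjSum (B q) ↔ _
    rw [Finset.inl_mem_disjSum]
    simp [A]
  have hmR : ∀ (q : U × Fin r) (x : W),
      (Sum.inr x : V') ∈ inc q ↔ x.1.1 = q.1 := by
    intro q x
    show Sum.inr x ∈ (A q).disjSum (B q) ↔ _
    rw [Finset.inr_mem_disjSum]
    simp [B]
  have hA : ∀ q, (A q).card = d q.1 := by
    intro q
    have h1 : (A q) = (E.attach.filter (fun e => q.1 ∈ e.1)).image (fun e => (e, q.2)) := by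
      ext ⟨e, i⟩
      simp only [A, mem_filter, mem_univ, true_and, mem_image, mem_attach, Prod.mk.injEq]
      constructor
      · rintro ⟨h1, h2⟩
        exact ⟨e, h1, rfl, h2.symm⟩
      · rintro ⟨e', h1, h2, h3⟩
        subst h2
        exact ⟨h1, h3.symm⟩
    rw [h1, Finset.card_image_of_injective _ (by
      intro a b hab
      simpa using hab)]
    have h2 : (E.attach.filter (fun e => q.1 ∈ e.1)).image Subtype.val =
        E.filter (fun e => q.1 ∈ e) := by
      ext e
      simp only [mem_image, mem_filter, mem_attach, true_and, Subtype.exists, exists_and_left,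
        exists_prop, exists_eq_right_right]
      tauto
    show _ = (E.filter (fun e => q.1 ∈ e)).card
    rw [← h2, Finset.card_image_of_injective _ Subtype.val_injective]
  have hB : ∀ q, (B q).card = 3 - d q.1 := by
    intro q
    have h1 : (B q).card = ((univ : Finset (Fin 3)).filter (fun j => j.val < 3 - d q.1)).card := by
      refine Finset.card_bij (fun x _ => x.1.2) ?_ ?_ ?_
      · intro x hx
        rw [mem_filter] at hx ⊢
        refine ⟨mem_univ _, ?_⟩
        have := x.2
        rw [hx.2] at this
        exact this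
      · intro x hx y hy hxy
        rw [mem_filter] at hx hy
        apply Subtype.ext
        apply Prod.ext
        · rw [hx.2, hy.2]
        · exact hxy
      · intro j hj
        rw [mem_filter] at hj
        exact ⟨⟨(q.1, j), hj.2⟩, by simp [B], rfl⟩
    rw [h1]
    have h2 : 3 - d q.1 ≤ 3 := Nat.sub_le _ _
    generalize 3 - d q.1 = m at h2
    interval_cases m <;> decide
  have hc3 : ∀ q, (inc q).card = 3 := by
    intro q
    show ((A q).disjSum (B q)).card = 3
    rw [Finset.card_disjSum, hA, hB]
    have h3 : d q.1 ≤ 3 := hD q.1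
    omega
  have hreg : ∀ v : V', (univ.filter (fun q => v ∈ inc q)).card = r := by
    intro v
    rcases v with ⟨e, i⟩ | x
    · have h1 : (univ.filter (fun q => (Sum.inl (e, i) : V') ∈ inc q)) =
          e.1.image (fun v => (v, i)) := by
        ext ⟨v, j⟩
        simp only [mem_filter, mem_univ, true_and, mem_image, hmL, Prod.mk.injEq]
        constructor
        · rintro ⟨h1, h2⟩
          exact ⟨v, h1, rfl, h2⟩
        · rintro ⟨v', h1, h2, h3⟩
          subst h2
          exact ⟨h1, h3⟩
      rw [h1, Finset.card_image_of_injective _ (by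
        intro a b hab
        simpa using hab)]
      exact hU e.1 e.2
    · have h1 : (univ.filter (fun q => (Sum.inr x : V') ∈ inc q)) =
          (univ : Finset (Fin r)).image (fun i => (x.1.1, i)) := by
        ext ⟨v, j⟩
        simp only [mem_filter, mem_univ, true_and, mem_image, hmR, Prod.mk.injEq]
        constructor
        · intro h1
          exact ⟨j, h1, rfl⟩
        · rintro ⟨j', h1, h2⟩
          exact h1
      rw [h1, Finset.card_image_of_injective _ (by
        intro a b hab
        simpa using hab)]
      simp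
  obtain ⟨c, hc⟩ := hG V' (U × Fin r) inc r hr hc3 hreg
  have hr0 : 0 < r := by omega
  refine ⟨fun v => tr (c (v, ⟨0, hr0⟩)), ?_⟩
  intro e he
  have key : ∀ i : Fin 3, i ≠ 0 →
      Pool.Agent.W209.CF.cnt inc c i (Sum.inl (⟨e, he⟩, ⟨0, hr0⟩) : V') = 1 →
      ∃ v ∈ e, tr (c (v, ⟨0, hr0⟩)) ≠ none ∧
        ∀ w ∈ e, tr (c (w, ⟨0, hr0⟩)) = tr (c (v, ⟨0, hr0⟩)) → w = v := by
    intro i hi0 hi
    rw [Pool.Agent.W209.CF.cnt, Finset.card_eq_one] at hi
    obtain ⟨q, hq⟩ := hi
    have h1 : q ∈ univ.filter
        (fun q => (Sum.inl (⟨e, he⟩, ⟨0, hr0⟩) : V') ∈ inc q ∧ c q = i) := by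
      rw [hq]; simp
    rw [mem_filter] at h1
    obtain ⟨-, h2, h3⟩ := h1
    rw [hmL] at h2
    have hq0 : q = (q.1, ⟨0, hr0⟩) := Prod.ext rfl h2.2.symm
    refine ⟨q.1, h2.1, ?_, ?_⟩
    · rw [← hq0, h3]
      exact tr_ne hi0
    · intro w hw hcw
      have hcw' := tr_inj hcw
      have h4 : ((w, ⟨0, hr0⟩) : U × Fin r) ∈
          univ.filter (fun q => (Sum.inl (⟨e, he⟩, ⟨0, hr0⟩) : V') ∈ inc q ∧ c q = i) := by
        rw [mem_filter]
        refine ⟨mem_univ _, ?_, ?_⟩
        · rw [hmL]
          exact ⟨hw, rfl⟩
        · rw [hcw', ← hq0, h3]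
      rw [hq, mem_singleton] at h4
      rw [← h4]
  rcases hc (Sum.inl (⟨e, he⟩, ⟨0, hr0⟩)) with h | h
  · exact key 1 (by decide) h
  · exact key 2 (by decide) h

/-- One more colour for each further unit of the degree. -/
theorem pgood_succ {r D k : ℕ} (h : PGood r D k) : PGood r (D + 1) (k + 1) := by
  classical
  intro V _ _ E hU hD
  let P : Finset V → Prop := fun X => ∀ e ∈ E, (e ∩ X).card ≤ 1
  have hfin : ((Finset.univ : Finset (Finset V)).filter P).Nonempty :=
    ⟨∅, by simp [P]⟩
  obtain ⟨X, hX, hmax⟩ := Finset.exists_max_image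
    ((Finset.univ : Finset (Finset V)).filter P) Finset.card hfin
  have hPX : P X := (Finset.mem_filter.1 hX).2
  let E' := E.filter (fun e => e ∩ X = ∅)
  have hU' : ∀ e ∈ E', e.card = r := fun e he => hU e (Finset.mem_filter.1 he).1
  have hD' : ∀ v : V, (E'.filter (fun e => v ∈ e)).card ≤ D := by
    intro v
    by_cases hv : v ∈ X
    · have : E'.filter (fun e => v ∈ e) = ∅ := by
        rw [Finset.filter_eq_empty_iff]
        intro e he hve
        have h1 := (Finset.mem_filter.1 he).2
        have h2 : v ∈ e ∩ X := Finset.mem_inter.2 ⟨hve, hv⟩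
        rw [h1] at h2
        exact absurd h2 (Finset.notMem_empty v)
      rw [this]
      simp
    · have hnot : ¬ P (insert v X) := by
        intro hP
        have := hmax (insert v X) (by simp [hP])
        rw [Finset.card_insert_of_notMem hv] at this
        omega
      simp only [P, not_forall] at hnot
      obtain ⟨e, he, hcard⟩ := hnot
      have hve : v ∈ e := by
        by_contra hve
        have : e ∩ insert v X = e ∩ X := by
          ext w
          simp only [Finset.mem_inter, Finset.mem_insert]
          constructor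
          · rintro ⟨h1, h2 | h2⟩
            · exact absurd (h2 ▸ h1) hve
            · exact ⟨h1, h2⟩
          · rintro ⟨h1, h2⟩
            exact ⟨h1, Or.inr h2⟩
        rw [this] at hcard
        exact hcard (hPX e he)
      have hne : e ∩ X ≠ ∅ := by
        intro h0
        apply hcard
        have : e ∩ insert v X ⊆ {v} := by
          intro w hw
          rw [Finset.mem_inter, Finset.mem_insert] at hw
          rcases hw.2 with h1 | h1
          · simp [h1]
          · have : w ∈ e ∩ X := Finset.mem_inter.2 ⟨hw.1, h1⟩
            rw [h0] at this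
            exact absurd this (Finset.notMem_empty w)
        calc (e ∩ insert v X).card ≤ ({v} : Finset V).card := Finset.card_le_card this
          _ = 1 := by simp
      have hsub : E'.filter (fun e => v ∈ e) ⊆ (E.filter (fun e => v ∈ e)).erase e := by
        intro f hf
        rw [Finset.mem_filter] at hf
        have hf1 := Finset.mem_filter.1 hf.1
        rw [Finset.mem_erase]
        refine ⟨?_, by simp [hf1.1, hf.2]⟩
        intro hfe
        exact hne (hfe ▸ hf1.2)
      have h1 := Finset.card_le_card hsub
      rw [Finset.card_erase_of_mem (by simp [he, hve])] at h1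
      have h2 := hD v
      omega
  obtain ⟨c', hc'⟩ := h V E' hU' hD'
  have hmap : Function.Injective (Option.map (Fin.castSucc : Fin k → Fin (k + 1))) :=
    Option.map_injective (Fin.castSucc_injective k)
  have hlast : ∀ o : Option (Fin k), Option.map (Fin.castSucc : Fin k → Fin (k + 1)) o ≠
      some (Fin.last k) := by
    rintro (_ | i) h
    · exact absurd h (by simp)
    · rw [Option.map_some, Option.some_inj] at h
      exact Fin.castSucc_ne_last _ h
  refine ⟨fun v => if v ∈ X then some (Fin.last k) else (c' v).map Fin.castSucc, ?_⟩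
  intro e he
  by_cases h0 : e ∩ X = ∅
  · obtain ⟨v, hve, hn, hv⟩ := hc' e (by simp [E', he, h0])
    have hout : ∀ w ∈ e, w ∉ X := by
      intro w hw hwX
      have : w ∈ e ∩ X := Finset.mem_inter.2 ⟨hw, hwX⟩
      rw [h0] at this
      exact absurd this (Finset.notMem_empty w)
    refine ⟨v, hve, ?_, ?_⟩
    · simp only [hout v hve, if_false]
      simpa using hn
    · intro w hw hcw
      simp only [hout w hw, hout v hve, if_false] at hcw
      exact hv w hw (hmap hcw)
  · obtain ⟨v, hv⟩ := Finset.nonempty_iff_ne_empty.2 h0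
    have hv' := Finset.mem_inter.1 hv
    refine ⟨v, hv'.1, ?_, ?_⟩
    · simp [hv'.2]
    · intro w hw hcw
      have hwX : w ∈ X := by
        by_contra hwX
        simp only [hwX, hv'.2, if_true, if_false] at hcw
        exact hlast _ hcw
      have h1 := hPX e he
      rw [Finset.card_le_one] at h1
      exact h1 w (Finset.mem_inter.2 ⟨hw, hwX⟩) v hv

/-- Maximum degree `D ≥ 3`: `D - 1` colours. -/
theorem pgood (r D : ℕ) (hr : 3 ≤ r) (hD : 3 ≤ D) : PGood r D (D - 1) := by
  induction D, hD using Nat.le_induction with
  | base => exact pgood3 r hr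
  | succ m hm ih =>
    have h := pgood_succ ih
    have e : m - 1 + 1 = m + 1 - 1 := by omega
    rw [e] at h
    exact h

end Pool.Agent.Y428.Cf
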